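import Pool.Agent.W921.Idl.Ideal
import Pool.Agent.W921.Idl.Orbit

/-!
# An idealistic analytic equivalence relation that is not an orbit equivalence relation

Two trees on the natural numbers are equivalent if both are ill-founded or both are well-founded
with the same rank. This relation is analytic and has a non-Borel class, so it is not Borel
reducible to an orbit equivalence relation of a Polish group. It is idealistic: the ideal on the
class of the trees of rank `α` consists of the sets which the generic tagged tree with root tag `α`
avoids, and a Borel set meets the class of the ill-founded trees in a set of the ideal if and only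
if the same holds for the class of rank `α`, for all large countable `α`.
-/

set_option autoImplicit false

open MeasureTheory

namespace Pool.Agent.Results.MP_488d72_lc.RankEquivalence

universe u v w

/-- `E` is Borel reducible to `F`: there is a Borel map `f` with `x E x' ↔ f x F f x'`. -/
def BorelReducible {X : Type u} {Y : Type v} [TopologicalSpace X] [TopologicalSpace Y]
    (E : Setoid X) (F : Setoid Y) : Prop :=
  ∃ f : X → Y, @Measurable X Y (borel X) (borel Y) f ∧ ∀ x x' : X, E x x' ↔ F (f x) (f x')

/-- `I` is a sigma-ideal of subsets of `C` which does not contain `C`. -/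
def IsProperSigmaIdeal {X : Type u} (C : Set X) (I : Set (Set X)) : Prop :=
  (∀ S ∈ I, S ⊆ C) ∧ ∅ ∈ I ∧ (∀ S ∈ I, ∀ T : Set X, T ⊆ S → T ∈ I) ∧
    (∀ S : ℕ → Set X, (∀ n, S n ∈ I) → (⋃ n, S n) ∈ I) ∧ C ∉ I

/-- `E` is idealistic: one can assign to every class `C` a sigma-ideal `I C` of subsets of `C`, with
`C ∉ I C`, such that for every Borel set `A ⊆ X × X` the set of all `x` such that
`{y ∈ [x] : (x, y) ∈ A}` belongs to `I [x]` is Borel. -/
def Idealistic {X : Type u} [TopologicalSpace X] (E : Setoid X) : Prop :=
  ∃ I : Set X → Set (Set X), (∀ x : X, IsProperSigmaIdeal {y | E x y} (I {y | E x y})) ∧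
    ∀ A : Set (X × X), @MeasurableSet (X × X) (borel (X × X)) A →
      @MeasurableSet X (borel X) {x | {y | E x y ∧ (x, y) ∈ A} ∈ I {y | E x y}}

/-- There is an analytic, idealistic equivalence relation on a Polish space which is not Borel
reducible (in particular not Borel bireducible) to the orbit equivalence relation of any continuous
action of a Polish group on a Polish space. -/
theorem result :
    ∃ (X : Type) (_ : TopologicalSpace X) (_ : PolishSpace X) (E : Setoid X),
      AnalyticSet {p : X × X | E p.1 p.2} ∧ Idealistic E ∧
      ∀ (G : Type v) [Group G] [TopologicalSpace G] [IsTopologicalGroup G] [PolishSpace G]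
        (Y : Type w) [TopologicalSpace Y] [PolishSpace Y] [MulAction G Y] [ContinuousSMul G Y],
        ¬ BorelReducible E (MulAction.orbitRel G Y) := by
  refine ⟨Pool.Agent.W921.Idl.X, inferInstance, inferInstance, Pool.Agent.W921.Idl.E,
    Pool.Agent.W921.Idl.analyticSet_E, ⟨Pool.Agent.W921.Idl.I, ?_, ?_⟩, ?_⟩
  · intro x
    exact Pool.Agent.W921.Idl.I_ideal x
  · intro A hA
    rw [← BorelSpace.measurable_eq] at hA ⊢
    exact Pool.Agent.W921.Idl.measurable_AI hA
  · intro G _ _ _ _ Y _ _ _ _
    rintro ⟨f, hf, hred⟩
    obtain ⟨x, hx⟩ := Pool.Agent.W921.Idl.ill_nonempty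
    have h1 := Pool.Agent.W921.Sel.measurableSet_orbit G Y (f x)
    have h2 : @MeasurableSet _ (borel Pool.Agent.W921.Idl.X) (f ⁻¹' (MulAction.orbit G (f x))) :=
      hf h1
    rw [← BorelSpace.measurable_eq] at h2
    refine Pool.Agent.W921.Idl.ill_not_measurable ?_
    convert h2 using 1
    ext y
    rw [← Pool.Agent.W921.Idl.E_ill hx y, hred x y, Set.mem_preimage]
    constructor
    · intro h
      exact (MulAction.orbitRel G Y).symm h
    · intro h
      exact (MulAction.orbitRel G Y).symm h

end Pool.Agent.Results.MP_488d72_lc.RankEquivalence
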